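import Pool.Agent.P.MP_2ac10d_nt.DI

namespace Pool.Agent.Results.MP_2ac10d_nt.Density

/-- The primes that divide no `n > 1` with `2^n ≡ 3 (mod n)` have lower Dirichlet density at
least `7/10`. -/
theorem result : ∃ C : ℝ, ∀ s : ℝ, 1 < s → 7 / 10 * Real.log (1 / (s - 1)) - C ≤
    ∑' p : {p : ℕ // p.Prime ∧ ∀ n : ℕ, 1 < n → 2 ^ n ≡ 3 [MOD n] → ¬ p ∣ n},
      ((p : ℕ) : ℝ) ^ (-s) :=
  Pool.Agent.P.MP_2ac10d_nt.density7

end Pool.Agent.Results.MP_2ac10d_nt.Density
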